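import Pool.Agent.R228.LD.Main

/-!
# Integration on `F_{d,∞}` with non-negative quadrature formulas suffers from the curse of
dimensionality
-/

set_option autoImplicit false

namespace Pool.Agent.Results.MP_2335a4_an.Curse

open Pool.Agent.R228.LD

/-- Question Q1 has a positive answer: there are `ε > 0` and `C > 1` with `N⁺(ε, d) ≥ C ^ d` for
all sufficiently large `d`. -/
theorem result : ∃ ε > (0 : ℝ), ∃ C > (1 : ℝ), ∃ d₀ : ℕ, ∀ d ≥ d₀,
    ENNReal.ofReal (C ^ d) ≤ (Nplus ε d : ENNReal) :=
  main

end Pool.Agent.Results.MP_2335a4_an.Curse
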